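import Mathlib

set_option autoImplicit false

namespace Pool.Agent.Results.MP_04b39a_gt.Counter

open Set

/-- The `ℓ_p` norm on `ℝ³`. -/
noncomputable def lp (p : ℝ) (x : Fin 3 → ℝ) : ℝ := (∑ i, |x i| ^ p) ^ (1 / p)

/-- `M'` is an `ℓ_p`-isometric copy of `M`. -/
def IsCopy (p : ℝ) (M M' : Set (Fin 3 → ℝ)) : Prop :=
  ∃ φ : (Fin 3 → ℝ) → (Fin 3 → ℝ), BijOn φ M M' ∧
    ∀ x ∈ M, ∀ y ∈ M, lp p (φ x - φ y) = lp p (x - y)

/-- The planar cubic curve. -/
def Cv : Set (Fin 3 → ℝ) := {z | z 2 = 0 ∧ z 0 ^ 3 + z 0 + z 1 ^ 3 + z 1 = 2}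

def b : Fin 3 → ℝ := ![-1, -1, 0]

def c : Fin 3 → ℝ := ![1, 1, 2]

lemma root (t : ℝ) : ∃ y : ℝ, y ^ 3 + y = t := by
  have hc : Continuous (fun y : ℝ => y ^ 3 + y) := by fun_prop
  have h1 : (-|t|) ^ 3 + -|t| ≤ t := by
    have := abs_nonneg t
    have h3 : 0 ≤ |t| ^ 3 := by positivity
    have := neg_abs_le t
    nlinarith
  have h2 : t ≤ |t| ^ 3 + |t| := by
    have h3 : 0 ≤ |t| ^ 3 := by positivity
    linarith [le_abs_self t]
  obtain ⟨y, -, hy⟩ := intermediate_value_Icc (by linarith [abs_nonneg t] : -|t| ≤ |t|)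
    hc.continuousOn ⟨h1, h2⟩
  exact ⟨y, hy⟩

lemma lp4 (x : Fin 3 → ℝ) : lp 4 x = (x 0 ^ 4 + x 1 ^ 4 + x 2 ^ 4) ^ ((1 : ℝ) / 4) := by
  have : ∀ a : ℝ, |a| ^ (4 : ℝ) = a ^ 4 := by
    intro a
    rw [show (4 : ℝ) = ((4 : ℕ) : ℝ) by norm_num, Real.rpow_natCast, Even.pow_abs (by decide)]
  unfold lp
  rw [Fin.sum_univ_three, this, this, this]

lemma b_not : b ∉ Cv := by
  rintro ⟨-, h⟩
  norm_num [b] at h

lemma c_not : c ∉ Cv := by
  rintro ⟨h, -⟩
  simp [c] at h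

theorem result :
    ∃ (p : ℝ) (M M' : Set (Fin 3 → ℝ)) (h : ℝ), 1 < p ∧ M.Infinite ∧ (∀ x ∈ M, x 2 = h) ∧
      IsCopy p M M' ∧
      ¬ ∃ P : AffineSubspace ℝ (Fin 3 → ℝ), Module.finrank ℝ P.direction = 2 ∧ M' ⊆ P := by
  classical
  refine ⟨4, insert b Cv, insert c Cv, 0, by norm_num, ?_, ?_, ?_, ?_⟩
  · apply Set.Infinite.mono (subset_insert _ _)
    choose r hr using root
    refine Set.infinite_of_injective_forall_mem
      (f := fun t : ℝ => (![t, r (2 - t ^ 3 - t), 0] : Fin 3 → ℝ)) ?_ ?_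
    · intro s t hst
      simpa using congrFun hst 0
    · intro t
      refine ⟨by simp, ?_⟩
      have := hr (2 - t ^ 3 - t)
      simp only [Matrix.cons_val_zero, Matrix.cons_val_one]
      linarith
  · rintro x (rfl | hx)
    · simp [b]
    · exact hx.1
  · have hφ : ∀ x ∈ Cv, (if x = b then c else x) = x := fun x hx =>
      if_neg (fun (h : x = b) => b_not (h ▸ hx))
    have key : ∀ x ∈ Cv, lp 4 (c - x) = lp 4 (b - x) ∧ lp 4 (x - c) = lp 4 (x - b) := by
      rintro x ⟨h1, h2⟩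
      constructor <;> rw [lp4, lp4] <;> congr 1 <;> simp [b, c, h1] <;> linarith
    refine ⟨fun x => if x = b then c else x, ⟨?_, ?_, ?_⟩, ?_⟩
    · rintro x (rfl | hx)
      · simp
      · simp only [hφ x hx]; exact Or.inr hx
    · rintro x (rfl | hx) y (rfl | hy) hxy
      · rfl
      · simp only [hφ y hy, if_true] at hxy
        exact absurd (hxy ▸ hy) c_not
      · simp only [hφ x hx, if_true] at hxy
        exact absurd (hxy ▸ hx) c_not
      · simpa only [hφ x hx, hφ y hy] using hxy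
    · rintro y (rfl | hy)
      · exact ⟨b, Or.inl rfl, by simp⟩
      · exact ⟨y, Or.inr hy, hφ y hy⟩
    · rintro x (rfl | hx) y (rfl | hy)
      · simp
      · simp only [hφ y hy, if_true]; exact (key y hy).1
      · simp only [hφ x hx, if_true]; exact (key x hx).2
      · simp only [hφ x hx, hφ y hy]
  · rintro ⟨P, hP, hsub⟩
    obtain ⟨y, hy⟩ := root (-8)
    have hy1 : y + 1 ≠ 0 := by
      intro h
      have : y = -1 := by linarith
      rw [this] at hy; norm_num at hy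
    have m0 : (![1, 0, 0] : Fin 3 → ℝ) ∈ P := hsub (Or.inr ⟨by simp, by norm_num⟩)
    have m1 : (![0, 1, 0] : Fin 3 → ℝ) ∈ P := hsub (Or.inr ⟨by simp, by norm_num⟩)
    have m2 : (![2, y, 0] : Fin 3 → ℝ) ∈ P :=
      hsub (Or.inr ⟨by simp, by simp only [Matrix.cons_val_zero, Matrix.cons_val_one]; linarith⟩)
    have m3 : c ∈ P := hsub (Or.inl rfl)
    have d1 := AffineSubspace.vsub_mem_direction m1 m0
    have d2 := AffineSubspace.vsub_mem_direction m2 m0
    have d3 := AffineSubspace.vsub_mem_direction m3 m0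
    have htop : P.direction = ⊤ := by
      rw [eq_top_iff]
      intro v _
      have e : v = (((v 0 + v 1 - v 2 / 2) / (y + 1)) - v 0) • ((![0, 1, 0] : Fin 3 → ℝ) -ᵥ ![1, 0, 0])
          + ((v 0 + v 1 - v 2 / 2) / (y + 1)) • ((![2, y, 0] : Fin 3 → ℝ) -ᵥ ![1, 0, 0])
          + (v 2 / 2) • (c -ᵥ ![1, 0, 0]) := by
        funext i
        fin_cases i <;> simp [c] <;> field_simp <;> ring
      rw [e]
      exact add_mem (add_mem (Submodule.smul_mem _ _ d1) (Submodule.smul_mem _ _ d2))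
        (Submodule.smul_mem _ _ d3)
    rw [htop, finrank_top] at hP
    simp at hP

end Pool.Agent.Results.MP_04b39a_gt.Counter
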